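import Mathlib

/-!
# Localisations of regular rings are regular
-/

set_option autoImplicit false

open Polynomial

namespace Pool.Agent.W791.BQN

theorem regular_of_isLocalization {A B : Type} [CommRing A] [CommRing B] [Algebra A B]
    (M : Submonoid A) [IsLocalization M B] (hA : IsRegularRing A) : IsRegularRing B := by
  have hN : IsNoetherianRing B := IsLocalization.isNoetherianRing M B inferInstance
  rw [isRegularRing_iff]
  intro Q hQ
  have h1 : IsLocalization.AtPrime (Localization.AtPrime Q) (Q.comap (algebraMap A B)) :=
    IsLocalization.isLocalization_isLocalization_atPrime_isLocalization M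
      (Localization.AtPrime Q) Q
  have h2 : IsRegularLocalRing (Localization.AtPrime (Q.comap (algebraMap A B))) :=
    isRegularRing_iff.mp hA _
  exact IsRegularLocalRing.of_ringEquiv (IsLocalization.algEquiv
    (Q.comap (algebraMap A B)).primeCompl (Localization.AtPrime (Q.comap (algebraMap A B)))
    (Localization.AtPrime Q)).toRingEquiv

theorem regular_quot_map {V W : Type} [CommRing V] [CommRing W] [Algebra V W]
    (M : Submonoid V) [IsLocalization M W] (u : V[X])
    (h : IsRegularRing (V[X] ⧸ Ideal.span {u})) :
    IsRegularRing (W[X] ⧸ Ideal.span {u.map (algebraMap V W)}) := by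
  let : Algebra V[X] W[X] := Polynomial.algebra V W
  have hl : IsLocalization (M.map Polynomial.C) W[X] := Polynomial.isLocalization M W
  have h1 : IsRegularRing (W[X] ⧸ (Ideal.span {u}).map (algebraMap V[X] W[X])) :=
    regular_of_isLocalization
      (Algebra.algebraMapSubmonoid (V[X] ⧸ Ideal.span {u}) (M.map Polynomial.C)) h
  have h2 : (Ideal.span {u}).map (algebraMap V[X] W[X]) =
      Ideal.span {u.map (algebraMap V W)} := by
    rw [Ideal.map_span, Set.image_singleton]
    rfl
  rw [h2] at h1
  exact h1

end Pool.Agent.W791.BQN
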