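import Pool.Agent.W394.BQN.Stm2
import Pool.Agent.W791.BQN.RLA

/-!
# Localisation of the coefficients
-/

set_option autoImplicit false

open Polynomial

namespace Pool.Agent.W791.BQN

theorem t_RL : Pool.Agent.W394.BQN.S_RL := fun _ _ p _ u h =>
  regular_quot_map p.primeCompl u h

end Pool.Agent.W791.BQN
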